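import Pool.Agent.Q68.OV.Reg

/-!
# The regulator on `K_j^{(j)}` of one variety and finitely many cubics `T(x, y, z) = 1`

Let `S` be **one** smooth projective variety over `ℚ`, and let `j ≥ 2`. Part (1) of the question Q1 for `S`
and `j` is whether the regulator
`K_j(S)^{(j)}_ℤ ⊗ ℝ = H_M^j(S, ℚ(j))_ℤ ⊗ ℝ → H_𝒟^j(S_ℝ, ℝ(j)) = H^{j-1}(S(ℂ), ℝ(j-1))^+` is an isomorphism
(`Iso`).

For a smooth projective scheme `Y` over `ℚ` let `M^m(Y) = H_M^{2m-j}(Y, ℚ(m))_ℤ ⊗ ℝ` (integral part,
Scholl; the part of `K_j(Y)` of weight `m`) and `D^m(Y) = H_𝒟^{2m-j}(Y_ℝ, ℝ(m))`, with the regulator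
`r : M^m(Y) → D^m(Y)`. The cycles `c` on `S × Y` of the codimension `m - j + dim S` operate by
`c_* : M^j(S) → M^m(Y)` and `c_* : D^j(S) → D^m(Y)`. Let `A^m(Y) ⊆ D^m(Y)` be the image of `r`, and
`B^m(Y) = B_1^m(Y) ⊕ B_2^m(Y)`, where `B_1^m(Y) ⊆ D^m(Y)` is the sum of `A^m(Y)` and of the images
`c_* D^j(S)`, and `B_2^m(Y) ⊆ M^m(Y)` the sum of the images `c_* N` of the kernel `N` of the regulator for
`S`, for all cycles `c` as above. They are additive functors of the Chow motive of `Y`, and the map
`A^m(Y) → B^m(Y)` (the inclusion in `B_1^m(Y)`) is bijective if and only if `c_* N = 0` and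
`c_* D^j(S) ⊆ A^m(Y)` for all `c` (`RegStable`). For a separated scheme `Z` of finite type over `ℚ` let
`W(Z)` be its weight complex (Gillet, Soulé; `W(Z) = h(Z)` for smooth projective `Z`), and put
`A^{m,i}(Z) = H^i(A^m(W(Z)))`, `B^{m,i}(Z) = H^i(B^m(W(Z)))`. `At C m Z` says that the maps
`A^{m,i}(Z) → B^{m,i}(Z)` are isomorphisms for this `m` and all `i`, `BijAll C Z` that they are
isomorphisms for all `m` and `i`.

**Theorem.** Let the dimension of `S` be at most `n`. There are finite lists `L`, `L'` of trilinear forms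
over `ℚ` and a finite list `G` of tripartite hypergraphs, which depend only on `S`, `n` and `j`, with the
following properties.

(1) Each form in `L` has at least three variables in each of its three blocks, and at most `n + 2` variables
in one of them. The regulator for `S` is an isomorphism if and only if the maps `A^{m,i}(Z) → B^{m,i}(Z)`
are isomorphisms, for all `m` and `i`, for the finitely many smooth affine cubic hypersurfaces
`Z : T(x, y, z) = 1`, `T` in `L`. If it is, they are isomorphisms for all `T` over `ℚ`.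

(2) It is an isomorphism if and only if, for the finitely many hypersurfaces `T = 1`, `T` in `L'`, and the
**one** index `m = j + a - 1`, `a` the number of the variables `x_i`, the maps are isomorphisms for all `i`.

(3) It is an isomorphism if and only if the maps are isomorphisms for the finitely many hypersurfaces
`∑_{(p, q, r) ∈ H} x_p y_q z_r = 1`, `H` in `G`.

(4) The maps are isomorphisms for all forms with a block of at most two variables (`zero`: dimension zero,
the theorem of Borel).

The corresponding statement for all varieties at once is a result of helper49 of this team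
(`HypergraphCubics`); here there is one variety and finitely many cubics.
-/

set_option autoImplicit false

open CategoryTheory CategoryTheory.Limits AlgebraicGeometry Pool.Agent.Y116.UV Pool.Agent.Z125.UN
  Pool.Agent.Q193.LT Pool.Agent.Q49.WU Pool.Agent.Q68.OV

universe w u

namespace Pool.Agent.Results.MP_4a177b_nt.FinitelyManyCubics

/-- A smooth projective variety `S` over `ℚ` and the regulators: `M m Y` and `D m Y` are
`H_M^{2m-j}(Y, ℚ(m))_ℤ ⊗ ℝ` and `H_𝒟^{2m-j}(Y_ℝ, ℝ(m))`, `reg` is the regulator, `Cyc m Y` the type of the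
cycles of codimension `m - j + dim S` on `S × Y`. -/
abbrev VarietyData (S : Sch ℚ) (j : ℤ) := RegData.{w, 0, u} ℚ ℝ S j

/-- The maps are isomorphisms for the index `m`. -/
def At (C : PairData.{w} ℚ (ℤ × ℤ) ℝ) (m : ℤ) (Z : Sch ℚ) : Prop := BijAt C Prod.fst m Z

/-- **The regulator on `K_j^{(j)}` of one variety and finitely many cubics.** See the explanations
above. -/
theorem result {S : Sch ℚ} (hS : SmoothProj S) {n : ℕ} (hn : topologicalKrullDim S.left ≤ n) (j : ℤ)
    (_hj : 2 ≤ j) :
    ∃ (L L' : List (Form ℚ)) (G : List Graph), (∀ t ∈ L, t.Block (n + 2) ∧ ¬ t.Block 2) ∧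
      ∀ (D : VarietyData.{w, u} S j) (C : PairData.{w} ℚ (ℤ × ℤ) ℝ), IsReg D → IsWeightPair C →
        WeightGen C → (∀ Y, SmoothProj Y → ∀ m, (At C m Y ↔ RegStable D m Y)) →
        (zero : ∀ Y : Sch ℚ, SmoothProj Y → topologicalKrullDim Y.left ≤ (0 : ℕ) → BijAll C Y) →
        (Iso D ↔ ∀ t ∈ L, BijAll C t.hyp) ∧
        (Iso D ↔ ∀ t ∈ L', At C (j - 1 + t.a) t.hyp) ∧
        (Iso D ↔ ∀ g ∈ G, BijAll C (g.hyp ℚ)) ∧
        (Iso D → ∀ t : Form ℚ, BijAll C t.hyp) ∧
        (∀ t : Form ℚ, t.Block 2 → BijAll C t.hyp) := by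
  obtain ⟨L, L', G, hL, h⟩ := reg_finite.{w, 0, u} hS hn 0 j
  refine ⟨L, L', G, hL, fun D C hD hC hg bij zero => ?_⟩
  obtain ⟨h3, h4, h5, h6, h7⟩ := h ℝ D C hD hC hg bij zero
  exact ⟨h3, h4, h5 frac_rat, h6, h7⟩

end Pool.Agent.Results.MP_4a177b_nt.FinitelyManyCubics
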