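import Pool.Agent.Q49.WU.Pair

/-!
# Beilinson's conjecture for `K_j^{(j)}`, one `j` at a time, and hypergraph cubics

Fix an integer `j ≥ 2`. For a Chow motive `N` over `ℚ` and an integer `n` let
`A^n(N) = K_j(N)^{(n)}_ℤ ⊗ ℝ`, the integral part (Scholl, functorial in Chow motives) of the motivic
cohomology `H^{2n-j}_M(N, ℚ(n)) = K_j(N)^{(n)}`, and `B^n(N) = H^{2n-j}_D(N_ℝ, ℝ(n))^{F_∞ = 1}`. The
Beilinson regulator is a natural map `A^n(N) → B^n(N)`. For `n = j` and `N = h(X)` this is the map
`reg_ℝ ⊗ ℝ : K_j(X)^{(j)}_ℤ ⊗ ℝ → H^{j-1}_B(X_ℝ, ℝ(j-1))^{F_∞ = 1}` of part (1) of question Q1.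

For a separated scheme `X` of finite type over `ℚ` let `W(X)` be its weight complex (Gillet, Soulé), a
complex of Chow motives with `W(X) = h(X)` for smooth projective `X`, and
`A^{n,i}(X) = H^i(A^n(W(X)))`, `B^{n,i}(X) = H^i(B^n(W(X)))`. The regulator induces maps
`A^{n,i}(X) → B^{n,i}(X)`; for smooth projective `X` and `i ≠ 0` the groups are zero. `Reg C n X` says
that these maps are isomorphisms for the given `n` and all `i`.

**Theorem.** Let `j ≥ 2`. (1) Part (1) of question Q1 is true for this `j` and all smooth projective `X`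
over `ℚ` if and only if the maps `A^{j+a-1,i}(X_H) → B^{j+a-1,i}(X_H)` are isomorphisms for all `i` and
the smooth affine cubic hypersurfaces `X_H : ∑_{(i, j, l) ∈ H} x_i y_j z_l = 1` of all finite sets `H` of
triples, where `a` is the number of the variables `x_i`. So only `K_j^{(j+a-1)}` of the weight complex of
`X_H` is needed.

(2) The same for the hypersurfaces `T(x, y, z) = 1` of all trilinear forms `T` over `ℚ` in `a` variables
`x_i` and any numbers of variables `y_j`, `z_l`.
-/

set_option autoImplicit false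

open CategoryTheory CategoryTheory.Limits AlgebraicGeometry Pool.Agent.Y116.UV Pool.Agent.Z125.UN
  Pool.Agent.Q193.LT Pool.Agent.Q49.WU

universe w

namespace Pool.Agent.Results.MP_4a177b_nt.HypergraphCubics

/-- The regulators of index `n` are isomorphisms. -/
def Reg (C : PairData.{w} ℚ (ℤ × ℤ) ℝ) (n : ℤ) (X : Sch ℚ) : Prop :=
  BijAt C Prod.fst n X

/-- **Beilinson's conjecture for `K_j^{(j)}` and hypergraph cubics.** See the explanations above; `point`
is the known case of `Spec ℚ` (Borel): the regulator of `K_j(ℚ)^{(n)}_ℤ` is an isomorphism for all `n`,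
if `j ≥ 2`. -/
theorem result {C : PairData.{w} ℚ (ℤ × ℤ) ℝ} (hC : IsWeightPair C) (hw : GenAt C Prod.fst)
    (point : BijAll C (aff ℚ ℚ)) (j : ℤ) :
    ((∀ Y : Sch ℚ, SmoothProj Y → Reg C j Y) ↔
      ∀ (a b c : ℕ) (H : Finset (Fin a × Fin b × Fin c)), Reg C (j + (a - 1)) (tripS ℚ H)) ∧
    ((∀ Y : Sch ℚ, SmoothProj Y → Reg C j Y) ↔
      ∀ (a b c : ℕ) (T : Fin a → Fin b → Fin c → ℚ), Reg C (j + (a - 1)) (hypS T)) :=
  ⟨sp_at_graph hw hC graded_weight point frac_rat j, sp_at_iff hw hC graded_weight point j⟩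

end Pool.Agent.Results.MP_4a177b_nt.HypergraphCubics
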