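import Pool.Agent.Q190.LT.Lead

/-!
# The order and the leading coefficient at `s = 0` of `L(h^{j-1}(X), s)`, and Beilinson's relation, from traces of Frobenius

Let `j ≥ 2`, `P p ∈ ℚ[X]` the polynomials `det(1 - Frob_p X | H^{j-1}(X)^{I_p})`, with the reciprocal roots `α p i` (padded by zeros)
of absolute value at most `p^{(j-1)/2}`, and `L` the continuation of `∏_p P_p(p^{-s})⁻¹`, meromorphic at the points of the real
interval `[0, (j+1)/2]`. For `γ > π/2` put

`S(T) = ∑_p ∑_{k ≥ 1} (∑_i (α p i)^k) / k · cos(γ k log p/T) / Γ(1 + k log p/T)`,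

a sum of rational multiples of the numbers `cos(γ k log p/T) / Γ(1 + k log p/T)`, which converges absolutely. Let `r` be the order of
`L` at `s = 0` (by Schneider, under the functional equation, the dimension of the Betti cohomology in Beilinson's conjecture), `L^*`
the leading coefficient and `N` the number of zeros minus the number of poles of `L` on the half-line `(0, ∞)`. Then
`L^* = (-1)^N |L^*|` and `exp(S(T) + r (log T - Λ)) = |L^*| + O(1/T)`; the order is `k` if and only if `S(T) / log T` tends to `-k`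
along one sequence; and for every real number `R ≠ 0` (the regulator determinant) the relation `L^* ∈ ℚ · R` holds if and only if,
for one `D ≥ 1`, the distance of `D exp(S(T) + r (log T - Λ)) / R` from the integers tends to zero along one sequence `T_i → ∞`.
-/

set_option autoImplicit false

namespace Pool.Agent.Results.MP_4a177b_nt.LeadingTerm

open Filter Topology Asymptotics Polynomial

/-- The term at `(p, k)`, `k = z.2 + 1`: `(∑_i (α p i)^k) / k · cos(γ k log p/T) / Γ(1 + k log p/T)`. -/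
noncomputable def term {n : ℕ} (α : Nat.Primes → Fin n → ℂ) (γ T : ℝ) (z : Nat.Primes × ℕ) : ℝ :=
  (∑ i, α z.1 i ^ (z.2 + 1)).re / (z.2 + 1) *
    (Real.cos (γ * ((z.2 + 1) * Real.log (z.1 : ℝ) / T)) / Real.Gamma (1 + (z.2 + 1) * Real.log (z.1 : ℝ) / T))

/-- The smoothed sum `S(T)`. -/
noncomputable def S {n : ℕ} (α : Nat.Primes → Fin n → ℂ) (γ T : ℝ) : ℝ := ∑' z, term α γ T z

/-- `Λ`, the real part of `∫_0^∞ (e^{-t} - e^{iγt} / Γ(1 + t)) dt / t`. -/
noncomputable def Lam (γ : ℝ) : ℝ := (∫ t in Set.Ioi (0 : ℝ),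
  (Complex.exp (-(t : ℂ)) - Complex.exp ((γ * t : ℝ) * Complex.I) * ((Real.Gamma (1 + t))⁻¹ : ℝ)) / t).re

/-- The number of zeros minus the number of poles of `L` on `(0, ∞)`, with multiplicities. -/
noncomputable def count (L : ℂ → ℂ) : ℤ := ∑ᶠ σ ∈ Set.Ioi (0 : ℝ), (meromorphicOrderAt L (σ : ℂ)).untop₀

theorem re_eq {n : ℕ} {α : Nat.Primes → Fin n → ℂ} {θ : ℝ} (E : Pool.Agent.Q45.ML.Eul n (fun p : Nat.Primes => (p : ℝ)) α θ 1)
    (hr : Pool.Agent.Q45.ML.RealSums α) (γ : ℝ) {T : ℝ} (hT : 0 < T) :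
    (Summable fun z => |term α γ T z|) ∧
    Pool.Agent.Q190.LT.rsum (fun p : Nat.Primes => (p : ℝ)) α 0 γ T = S α γ T := by
  have hsum := E.sterm_summable 0 γ hT
  have hterm : ∀ z, term α γ T z = (Pool.Agent.Q45.ML.sterm (fun p : Nat.Primes => (p : ℝ)) α 0 γ T z).re := by
    intro z
    have e1 : (∑ i, α z.1 i ^ (z.2 + 1)) = (((∑ i, α z.1 i ^ (z.2 + 1)).re : ℝ) : ℂ) := by
      apply Complex.ext
      · simp
      · rw [hr z.1 (z.2 + 1), Complex.ofReal_im]
    unfold Pool.Agent.Q45.ML.sterm term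
    rw [mul_zero, Complex.ofReal_zero, Complex.cpow_zero, mul_one, e1]
    have e2 : ((((∑ i, α z.1 i ^ (z.2 + 1)).re : ℝ) : ℂ) / ((z.2 : ℂ) + 1)) =
        (((∑ i, α z.1 i ^ (z.2 + 1)).re / ((z.2 : ℝ) + 1) : ℝ) : ℂ) := by push_cast; ring
    rw [e2, Complex.re_ofReal_mul, Complex.div_ofReal_re, Complex.exp_ofReal_mul_I_re]
    simp
  constructor
  · refine Summable.of_nonneg_of_le (fun z => abs_nonneg _) (fun z => ?_) hsum
    rw [hterm]
    exact Complex.abs_re_le_norm _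
  · unfold Pool.Agent.Q190.LT.rsum Pool.Agent.Q45.ML.smooth S
    rw [Complex.re_tsum hsum.of_norm]
    exact tsum_congr fun z => (hterm z).symm

theorem result {n j : ℕ} (_hj : 2 ≤ j) (P : Nat.Primes → ℚ[X]) (α : Nat.Primes → Fin n → ℂ)
    (hP : ∀ p, (P p).map (algebraMap ℚ ℂ) = ∏ i, (1 - C (α p i) * X))
    (hα : ∀ p i, ‖α p i‖ ≤ (p : ℝ) ^ (((j : ℝ) - 1) / 2))
    (L : ℂ → ℂ) (hmer : ∀ σ : ℝ, 0 ≤ σ → σ ≤ ((j : ℝ) + 1) / 2 → MeromorphicAt L (σ : ℂ))
    (hL : ∀ s : ℂ, ((j : ℝ) + 1) / 2 < s.re → HasProd (fun p : Nat.Primes => (aeval ((p : ℂ) ^ (-s)) (P p))⁻¹) (L s))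
    {γ : ℝ} (hγ : Real.pi / 2 < γ) :
    (∀ T : ℝ, 0 < T → Summable fun z => |term α γ T z|) ∧
    ∃ r : ℤ, meromorphicOrderAt L 0 = r ∧
      0 < ‖meromorphicTrailingCoeffAt L 0‖ ∧
      meromorphicTrailingCoeffAt L 0 = (-1) ^ count L * (‖meromorphicTrailingCoeffAt L 0‖ : ℂ) ∧
      ((fun T : ℝ => Real.exp (S α γ T + r * (Real.log T - Lam γ)) - ‖meromorphicTrailingCoeffAt L 0‖) =O[atTop]
        fun T : ℝ => 1 / T) ∧
      (∀ k : ℤ, List.TFAE [meromorphicOrderAt L 0 = k, Tendsto (fun T : ℝ => S α γ T / Real.log T) atTop (𝓝 (-k)),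
        ∃ t : ℕ → ℝ, Tendsto t atTop atTop ∧ Tendsto (fun i => S α γ (t i) / Real.log (t i)) atTop (𝓝 (-k))]) ∧
      ∀ R : ℝ, R ≠ 0 → ((∃ e : ℚ, meromorphicTrailingCoeffAt L 0 = e * R) ↔ ∃ D : ℕ, 0 < D ∧
        ∃ t : ℕ → ℝ, Tendsto t atTop atTop ∧ Tendsto (fun i => Metric.infDist
          (D * Real.exp (S α γ (t i) + r * (Real.log (t i) - Lam γ)) / R) (Set.range ((↑) : ℤ → ℝ))) atTop (𝓝 0)) := by
  have hE : Pool.Agent.Q45.ML.Eul n (fun p : Nat.Primes => (p : ℝ)) α (((j : ℝ) - 1) / 2) 1 :=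
    Pool.Agent.Q45.ML.eul_q hα
  have hR : Pool.Agent.Q45.ML.RealSums α := by
    intro p k
    refine Pool.Agent.Q45.ML.real_sums_of_conj ?_ k
    rw [← hP p, Polynomial.map_map]
    congr 1
    exact Subsingleton.elim _ _
  have hj0 : (0 : ℝ) ≤ j := j.cast_nonneg
  have ej : ((j : ℝ) - 1) / 2 + 1 = ((j : ℝ) + 1) / 2 := by ring
  obtain ⟨m, h1, h2, h3, h4⟩ := Pool.Agent.Q190.LT.real_lead hE hR (F := L) (s₀ := 0) (by linarith)
    (fun x h0 h1 => hmer x h0 (by linarith))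
    (fun s hs => by
      refine (hL s (by linarith)).congr_fun fun p => ?_
      have e1 : aeval ((p : ℂ) ^ (-s)) (P p) = ∏ i, (1 - α p i * (p : ℂ) ^ (-s)) := by
        rw [aeval_def, eval₂_eq_eval_map, hP p, eval_prod]
        simp
      rw [e1, Finset.prod_inv_distrib]
      simp) hγ
  rw [Complex.ofReal_zero] at h1 h2 h3 h4
  refine ⟨fun T hT => (re_eq hE hR γ hT).1, m, h1, h3, h2, ?_⟩
  have hO : (fun T : ℝ => S α γ T - (Real.log ‖meromorphicTrailingCoeffAt L 0‖ - m * (Real.log T - Lam γ))) =O[atTop]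
      (fun T : ℝ => 1 / T) := by
    refine h4.congr' ?_ EventuallyEq.rfl
    filter_upwards [eventually_gt_atTop 0] with T hT
    rw [(re_eq hE hR γ hT).2]
    rfl
  have hv := Pool.Agent.Q190.LT.exp_rate hO
  rw [Real.exp_log h3] at hv
  refine ⟨hv, fun k => ?_, fun R hR0 => ?_⟩
  · have e : (meromorphicOrderAt L 0 = k) ↔ m = k := by
      rw [h1]
      exact WithTop.coe_inj
    rw [e]
    exact Pool.Agent.Q190.LT.order_real hO k
  · have hlim : Tendsto (fun T : ℝ => Real.exp (S α γ T + m * (Real.log T - Lam γ))) atTop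
        (𝓝 ‖meromorphicTrailingCoeffAt L 0‖) := by
      have h5 : Tendsto (fun T : ℝ => Real.exp (S α γ T + m * (Real.log T - Lam γ)) - ‖meromorphicTrailingCoeffAt L 0‖) atTop
          (𝓝 0) := hv.trans_tendsto (tendsto_const_nhds.div_atTop tendsto_id)
      simpa using h5.add_const ‖meromorphicTrailingCoeffAt L 0‖
    rw [← Pool.Agent.Q190.LT.ratio_iff hR0 hlim]
    constructor
    · rintro ⟨e, he⟩
      refine ⟨(-1) ^ count L * e, ?_⟩
      have h6 : (‖meromorphicTrailingCoeffAt L 0‖ : ℂ) = (-1) ^ count L * meromorphicTrailingCoeffAt L 0 := by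
        conv_rhs => rw [h2]
        show _ = (-1) ^ count L * ((-1) ^ count L * _)
        rw [← mul_assoc, ← mul_zpow]
        norm_num
      have h7 : ((‖meromorphicTrailingCoeffAt L 0‖ : ℝ) : ℂ) = (((((-1 : ℚ)) ^ count L * e : ℚ) : ℝ) * R : ℝ) := by
        rw [h6, he]
        push_cast
        ring
      exact_mod_cast h7
    · rintro ⟨e, he⟩
      refine ⟨(-1) ^ count L * e, ?_⟩
      rw [h2, he]
      show (-1) ^ count L * _ = _
      push_cast
      ring

end Pool.Agent.Results.MP_4a177b_nt.LeadingTerm
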