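import Pool.Agent.Q16.LS.PDom
set_option autoImplicit false

/-!
Beilinson's conjecture on the regulators of `K_j` in weight `j`: on the hypersurfaces
`∏_j x_j ^ β_j p(z) = λ ∏_j ∏_i h_{j,i}(x_j) ^ (w_{j,i} + 1) H(z, x)`, where `p` is a product of
polynomials with affinely independent exponents and roots of unity as coefficients and of homogenized
cyclotomic polynomials, the `h_{j,i}` are arbitrary coprime monic polynomials with integral
coefficients, and `H` is an arbitrary polynomial with integral coefficients all of whose monomials
have exponents of `z` in the interior of the Newton polytope of `p`: unramified classes in Milnor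
K-theory with linearly independent regulators, for all large algebraic integers `λ` of a number field.
-/

namespace Pool.Agent.Results.MP_4a177b_nt.ProductBaseLinearSystems

open Pool.Agent.Q16.BF (IsSplitPoly)

open Pool.Agent.Q16.LS

open Pool.Agent.TH826.MK (KQ symb Unramified Torus)

/-- The hypotheses on `p(z)` and `H(z, x)`: `p` is a product of polynomials with affinely independent
exponents and roots of unity as coefficients and of homogenized cyclotomic polynomials in two
monomials, `H ≠ 0` has integral coefficients, the exponents of `z` in the monomials of `H` lie in the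
interior of the Newton polytope of `p`, and the degree of `H` in `z_0` is the one of `p` minus one. -/
structure Admissible {K : Type*} [Field K] {s n : ℕ} (p : MvPolynomial (Fin (s + 1)) K)
    (H : MvPolynomial (Fin (s + 1) ⊕ Fin n) K) : Prop where
  split : IsSplitPoly p
  ne_zero : H ≠ 0
  integral : ∀ m, IsIntegral ℤ (H.coeff m)
  interior : InteriorH p H
  degree : p.degreeOf 0 = H.degreeOf (Sum.inl 0) + 1

/-- The polynomials `h_{j,i}` in one variable are monic of positive degree with integral
coefficients, for each `j` they are pairwise coprime, and for the `j` with `β_j ≠ 0` their values at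
`0` are roots of unity. -/
structure IsBase {K : Type*} [Field K] {n : ℕ} (r : Fin n → ℕ)
    (h : (j : Fin n) → Fin (r j + 1) → Polynomial K) (β : Fin n → ℕ) : Prop where
  monic : ∀ j i, (h j i).Monic
  pos : ∀ j i, 0 < (h j i).natDegree
  integral : ∀ j i m, IsIntegral ℤ ((h j i).coeff m)
  coprime : ∀ j i i', i ≠ i' → IsCoprime (h j i) (h j i')
  root : ∀ j, β j ≠ 0 → ∀ i, ∃ N : ℕ, N ≠ 0 ∧ (h j i).eval 0 ^ N = 1

/-- The symbols are unramified: their images under all homomorphisms from the coordinate ring of the
open part to fields `L` lie in the unramified parts of the Milnor K-groups of `L` (they are unramified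
at all discrete valuations of `L`). -/
def UnramSymb.{u, v} {K : Type u} [Field K] {s n : ℕ} (p : MvPolynomial (Fin (s + 1)) K)
    (H : MvPolynomial (Fin (s + 1) ⊕ Fin n) K) (r : Fin n → ℕ)
    (h : (j : Fin n) → Fin (r j + 1) → Polynomial K) (w : (j : Fin n) → Fin (r j + 1) → ℕ)
    (β : Fin n → ℕ) (lam : K) : Prop :=
  ∀ (L : Type v) [Field L] (f : WOpen p H (pD K β) (pPhi r h w lam) →+* L)
    (k : ∀ j, Fin (r j)),
    KQ.map (n + s + 1) f (symb (psym r h w lam β p H k)) ∈ Unramified L (n + s + 1)

/-- There are tori of dimension `n + s` in the smooth complex points over `σ` of the open part,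
indexed by the `k = (k_j)` with `0 ≤ k_j < r_j`, such that the determinant of the regulators of the
symbols on the tori does not vanish. -/
def IndepReg {K : Type*} [Field K] {s n : ℕ} (p : MvPolynomial (Fin (s + 1)) K)
    (H : MvPolynomial (Fin (s + 1) ⊕ Fin n) K) (r : Fin n → ℕ)
    (h : (j : Fin n) → Fin (r j + 1) → Polynomial K) (w : (j : Fin n) → Fin (r j + 1) → ℕ)
    (β : Fin n → ℕ) (lam : K) (σ : K →+* ℂ) : Prop :=
  ∃ Γ : (∀ j, Fin (r j)) → Torus (WOpen p H (pD K β) (pPhi r h w lam)) (n + s),
    (∀ t θ, ∃ (z : Fin (s + 1) → ℂ) (x : Fin n → ℂ),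
      (∀ q, (Γ t).e θ (opol _ _ q) = MvPolynomial.eval₂ σ (Sum.elim z x) q) ∧
      MvPolynomial.eval₂ σ (Sum.elim z x)
        (MvPolynomial.pderiv (Sum.inl 0) (weqn p H (pD K β) (pPhi r h w lam))) ≠ 0) ∧
    (Matrix.of fun t k : ∀ j, Fin (r j) =>
      (Γ t).reg (symb (psym r h w lam β p H k))).det ≠ 0

/-- Let `p` be a polynomial in `z_0, ..., z_s` over the number field `K` which is a product of
polynomials `∑_j ζ_j z ^ A_j` with roots of unity `ζ_j` and affinely independent exponents `A_j` and of
polynomials `z ^ (D B) Q(z ^ A / z ^ B)`, `A ≠ B`, where `Q` is a monic divisor of degree `D` of some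
`X ^ r - 1`, `r ≥ 1`. Let `H ≠ 0` be a polynomial with integral coefficients in `z` and
`x_0, ..., x_n` such that the exponents of `z` in the monomials of `H` lie in the interior of the
Newton polytope of `p`, and `deg_{z_0} p = deg_{z_0} H + 1`. For `0 ≤ j ≤ n` let
`h_{j,0}, ..., h_{j,r_j}` be pairwise coprime monic polynomials of positive degree in one variable with
integral coefficients, let `w_{j,i} ≥ 0` and `β_j ≥ 0` be integers such that the values at `0` of the
`h_{j,i}` with `β_j ≠ 0` are roots of unity, and let `σ` be a complex embedding of `K`. There is a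
constant `C` such that for all algebraic integers `λ` of `K` with `|σ λ| ≥ C` the following holds for
the affine hypersurface `∏_j x_j ^ β_j p(z) = Φ(x) H(z, x)`,
`Φ = λ ∏_j ∏_i h_{j,i}(x_j) ^ (w_{j,i} + 1)`, of dimension `n + 1 + s`: if `β = 0`, `p` and `H` have no
common factor and `H` has a monomial of the largest degree in `x` whose degree in `z_0` is the one of
`p` minus one (condition `Irr`), the coordinate ring of the hypersurface is a domain; the images of the
`∏_j r_j` symbols
`{z_0, h_{j,k_j+1}(x_j) ^ (deg h_{j,0}) / h_{j,0}(x_j) ^ (deg h_{j,k_j+1}) (0 ≤ j ≤ n), z_1, ..., z_s}`,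
`0 ≤ k_j < r_j`, on the open part `∏_j x_j ^ β_j Φ z_0 ... z_s ≠ 0` in all fields are unramified at all
discrete valuations; and there are `∏_j r_j` tori of dimension `n + 1 + s` in the complex points (over
`σ`) of the open part, consisting of smooth points, such that the determinant of the regulators of the
symbols on the tori does not vanish. -/
theorem result.{u, v} (n s : ℕ) (K : Type u) [Field K] [NumberField K] (σ : K →+* ℂ)
    (p : MvPolynomial (Fin (s + 1)) K) (H : MvPolynomial (Fin (s + 1) ⊕ Fin (n + 1)) K)
    (hp : Admissible p H) (r : Fin (n + 1) → ℕ)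
    (h : (j : Fin (n + 1)) → Fin (r j + 1) → Polynomial K) (β : Fin (n + 1) → ℕ)
    (hh : IsBase r h β) (w : (j : Fin (n + 1)) → Fin (r j + 1) → ℕ) :
    ∃ C : ℝ, ∀ lam : K, IsIntegral ℤ lam → C ≤ ‖σ lam‖ →
      (β = (fun _ => 0) → Irr p H → IsDomain (VRing (weqn p H (pD K β) (pPhi r h w lam)))) ∧
        UnramSymb.{u, v} p H r h w β lam ∧ IndepReg p H r h w β lam σ := by
  obtain ⟨C, hC, hΓ⟩ := exists_tori_P σ hp.degree hp.ne_zero rfl hh.monic hh.pos hh.coprime β w
  have hp0 : p ≠ 0 := by
    intro h0
    have h1 := hp.degree
    rw [h0, MvPolynomial.degreeOf_zero] at h1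
    omega
  refine ⟨C, fun lam hlam hl => ⟨fun hβ hI => ?_, fun L _ f k => ?_, hΓ lam hl⟩⟩
  · have hl0 : lam ≠ 0 := by
      intro h0
      rw [h0, map_zero, norm_zero] at hl
      linarith
    rw [hβ]
    exact isDomain_P hp.degree rfl hI hh.monic hh.pos hl0
  · exact psym_unramified f hp0 hp.split hp.ne_zero hp.integral hp.interior hlam hh.monic
      hh.integral hh.root k

end Pool.Agent.Results.MP_4a177b_nt.ProductBaseLinearSystems
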